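import Mathlib
import Pool.Agent.TH729.SQ.Tools

/-!
Real algebraic constants in semialgebraic predicates over `ℚ`.
-/

set_option autoImplicit false

open Finset

namespace Pool.Agent.TH717.SD

open Pool.Agent.H581R2
open Pool.Agent.TH729.SQ

theorem pf_poly {ι : Type} (p : Polynomial ℚ) (i : ι) :
    PF (fun v : ι → ℝ => Polynomial.aeval (v i) p) := by
  refine ⟨Polynomial.aeval (MvPolynomial.X i) p, fun v => ?_⟩
  rw [← Polynomial.aeval_algHom_apply, MvPolynomial.aeval_X]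

/-- the coordinate `i` is equal to the algebraic number `x0` -/
theorem sap_alg {ι : Type} (i : ι) (x0 : ℝ) (h : IsAlgebraic ℚ x0) :
    SAP (fun v : ι → ℝ => v i = x0) := by
  obtain ⟨p, hp0, hp⟩ := h
  set R : Set ℝ := {x | Polynomial.aeval x p = 0} with hR
  have hfin : R.Finite := by
    have h1 : R = {x | (p.map (algebraMap ℚ ℝ)).IsRoot x} := by
      ext x
      simp only [hR, Set.mem_setOf_eq, Polynomial.IsRoot, Polynomial.eval_map_algebraMap]
    rw [h1]
    exact Polynomial.finite_setOf_isRoot (by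
      rw [Polynomial.map_ne_zero_iff (algebraMap ℚ ℝ).injective]
      exact hp0)
  have hopen : IsOpen (R \ {x0})ᶜ := (hfin.subset Set.diff_subset).isClosed.isOpen_compl
  have hx0 : x0 ∈ (R \ {x0})ᶜ := fun h => h.2 rfl
  obtain ⟨ε, hε, hball⟩ := Metric.isOpen_iff.1 hopen x0 hx0
  obtain ⟨a, ha1, ha2⟩ := exists_rat_btwn (show x0 - ε < x0 by linarith)
  obtain ⟨b, hb1, hb2⟩ := exists_rat_btwn (show x0 < x0 + ε by linarith)
  have h1 : SAP (fun v : ι → ℝ => (a : ℝ) < v i ∧ v i < (b : ℝ) ∧ Polynomial.aeval (v i) p = 0) :=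
    (SAP.lt (PF.const a) (PF.coord i)).and ((SAP.lt (PF.coord i) (PF.const b)).and
      (SAP.eq_zero (pf_poly p i)))
  refine h1.congr fun v => ?_
  constructor
  · intro h
    rw [h]
    exact ⟨ha2, hb1, hp⟩
  · rintro ⟨h2, h3, h4⟩
    by_contra hne
    have h5 : v i ∈ Metric.ball x0 ε := by
      rw [Metric.mem_ball, Real.dist_eq, abs_lt]
      constructor <;> linarith
    exact hball h5 ⟨h4, hne⟩

/-- algebraic constants -/
theorem sap_spec {κ ι : Type} [Finite κ] (P : (κ ⊕ ι → ℝ) → Prop) (hP : SAP P) (θ : κ → ℝ)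
    (hθ : ∀ j, IsAlgebraic ℚ (θ j)) : SAP (fun v : ι → ℝ => P (Sum.elim θ v)) := by
  have h1 : SAP (fun w : κ ⊕ ι → ℝ => (∀ j, w (Sum.inl j) = θ j) ∧ P w) :=
    (SAP.forall_fin fun j => sap_alg (Sum.inl j) (θ j) (hθ j)).and hP
  refine SAP.congr (SAP.exists_fun κ ι _ h1) fun v => ?_
  constructor
  · intro h
    exact ⟨θ, fun j => rfl, h⟩
  · rintro ⟨u, hu, h⟩
    have : u = θ := funext fun j => hu j
    rwa [this] at h

end Pool.Agent.TH717.SD
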