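import Mathlib
import Pool.Agent.TH717.SD.Alg
import Pool.Agent.H612.LR.T_KRO

/-!
The cone of the real vectors for which a combination of powers is nonnegative is semialgebraic.
-/

set_option autoImplicit false

open Finset

namespace Pool.Agent.TH717.SD

open Pool.Agent.H581R2
open Pool.Agent.TH729.SQ
open Pool.Agent.H612.LR (mon t_KRO)

/-! ### complex polynomial functions -/

def PC {ι : Type} (F : (ι → ℝ) → ℂ) : Prop := PF (fun v => (F v).re) ∧ PF (fun v => (F v).im)

section pc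

variable {ι : Type}

theorem PC.congr {F G : (ι → ℝ) → ℂ} (hF : PC F) (h : ∀ v, G v = F v) : PC G := by
  have : G = F := funext h
  rwa [this]

theorem PC.one : PC (fun _ : ι → ℝ => (1 : ℂ)) := by
  constructor
  · simpa using (PF.one : PF (fun _ : ι → ℝ => (1 : ℝ)))
  · simpa using (PF.zero : PF (fun _ : ι → ℝ => (0 : ℝ)))

theorem PC.zero : PC (fun _ : ι → ℝ => (0 : ℂ)) := by
  constructor
  · simpa using (PF.zero : PF (fun _ : ι → ℝ => (0 : ℝ)))
  · simpa using (PF.zero : PF (fun _ : ι → ℝ => (0 : ℝ)))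

theorem PC.add {F G : (ι → ℝ) → ℂ} (hF : PC F) (hG : PC G) : PC (fun v => F v + G v) := by
  constructor
  · simpa using hF.1.add hG.1
  · simpa using hF.2.add hG.2

theorem PC.mul {F G : (ι → ℝ) → ℂ} (hF : PC F) (hG : PC G) : PC (fun v => F v * G v) := by
  constructor
  · simpa using (hF.1.mul hG.1).sub (hF.2.mul hG.2)
  · simpa using (hF.1.mul hG.2).add (hF.2.mul hG.1)

theorem PC.conj {F : (ι → ℝ) → ℂ} (hF : PC F) : PC (fun v => (starRingEnd ℂ) (F v)) := by
  constructor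
  · simpa using hF.1
  · simpa using hF.2.neg

theorem PC.mk {f g : (ι → ℝ) → ℝ} (hf : PF f) (hg : PF g) :
    PC (fun v => (⟨f v, g v⟩ : ℂ)) := ⟨hf, hg⟩

theorem PC.pow {F : (ι → ℝ) → ℂ} (hF : PC F) (n : ℕ) : PC (fun v => F v ^ n) := by
  induction n with
  | zero => exact PC.one.congr (by simp)
  | succ n ih => exact (ih.mul hF).congr (by intro v; rw [pow_succ])

theorem PC.sum {α : Type} (s : Finset α) {F : α → (ι → ℝ) → ℂ} (hF : ∀ a, PC (F a)) :
    PC (fun v => ∑ a ∈ s, F a v) := by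
  classical
  induction s using Finset.induction_on with
  | empty => exact PC.zero.congr (by simp)
  | insert a s ha ih =>
    exact ((hF a).add ih).congr (by intro v; rw [Finset.sum_insert ha])

theorem PC.prod {α : Type} (s : Finset α) {F : α → (ι → ℝ) → ℂ} (hF : ∀ a, PC (F a)) :
    PC (fun v => ∏ a ∈ s, F a v) := by
  classical
  induction s using Finset.induction_on with
  | empty => exact PC.one.congr (by simp)
  | insert a s ha ih =>
    exact ((hF a).mul ih).congr (by intro v; rw [Finset.prod_insert ha])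

theorem PC.eq_one {F : (ι → ℝ) → ℂ} (hF : PC F) : SAP (fun v => F v = 1) := by
  refine ((SAP.eq hF.1 PF.one).and (SAP.eq hF.2 PF.zero)).congr fun v => ?_
  rw [Complex.ext_iff]
  simp

theorem PC.eq_zero {F : (ι → ℝ) → ℂ} (hF : PC F) : SAP (fun v => F v = 0) := by
  refine ((SAP.eq hF.1 PF.zero).and (SAP.eq hF.2 PF.zero)).congr fun v => ?_
  rw [Complex.ext_iff]
  simp

end pc

theorem SAP.forall_fun (J : Type) [Finite J] (ι : Type) (p : (J ⊕ ι → ℝ) → Prop) (hp : SAP p) :
    SAP (fun v : ι → ℝ => ∀ u : J → ℝ, p (Sum.elim u v)) := by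
  refine SAP.congr (SAP.exists_fun J ι _ hp.not).not fun v => ?_
  push Not
  rfl

/-- powers with integer exponents on the unit circle -/
noncomputable def zp (w : ℂ) (e : ℤ) : ℂ := w ^ e.toNat * (starRingEnd ℂ w) ^ (-e).toNat

theorem zp_eq {w : ℂ} (hw : ‖w‖ = 1) (e : ℤ) : zp w e = w ^ e := by
  have hw0 : w ≠ 0 := by
    intro h
    rw [h, norm_zero] at hw
    exact zero_ne_one hw
  have hinv : (starRingEnd ℂ) w = w⁻¹ := by
    rw [Complex.inv_def, Complex.normSq_eq_norm_sq, hw]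
    simp
  unfold zp
  rw [hinv, inv_pow, ← zpow_natCast, ← zpow_natCast, ← zpow_neg, ← zpow_add₀ hw0]
  congr 1
  omega

/-- the extension by one -/
noncomputable def ex {d : ℕ} (h : Fin d → ℂ) : ℕ → ℂ := fun n => if hn : n < d then h ⟨n, hn⟩ else 1

theorem ex_val {d : ℕ} (h : Fin d → ℂ) (i : Fin d) : ex h i = h i := by
  unfold ex
  simp

/-- the relations -/
def rel {d : ℕ} (D : Finset (Fin d)) (h : Fin d → ℂ) (hh : ∀ i ∈ D, h i ≠ 0) :
    Submodule ℤ (Fin d → ℤ) where
  carrier := {e | ∏ i ∈ D, h i ^ e i = 1}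
  add_mem' := by
    intro a b ha hb
    have ha' : ∏ i ∈ D, h i ^ a i = 1 := ha
    have hb' : ∏ i ∈ D, h i ^ b i = 1 := hb
    show ∏ i ∈ D, h i ^ (a i + b i) = 1
    rw [Finset.prod_congr rfl fun i hi => zpow_add₀ (hh i hi) (a i) (b i),
      Finset.prod_mul_distrib, ha', hb', one_mul]
  zero_mem' := by
    show ∏ i ∈ D, h i ^ (0 : ℤ) = 1
    simp
  smul_mem' := by
    intro c a ha
    have ha' : ∏ i ∈ D, h i ^ a i = 1 := ha
    show ∏ i ∈ D, h i ^ (c * a i) = 1
    have h1 : ∀ i ∈ D, h i ^ (c * a i) = (h i ^ a i) ^ c := by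
      intro i _
      rw [mul_comm, zpow_mul]
    rw [Finset.prod_congr rfl h1, Finset.prod_zpow, ha', one_zpow]

theorem mem_rel {d : ℕ} (D : Finset (Fin d)) (h : Fin d → ℂ) (hh : ∀ i ∈ D, h i ≠ 0)
    (e : Fin d → ℤ) : e ∈ rel D h hh ↔ ∏ i ∈ D, h i ^ e i = 1 := Iff.rfl

theorem ne_of_norm {w : ℂ} (hw : ‖w‖ = 1) : w ≠ 0 := by
  intro h
  rw [h, norm_zero] at hw
  exact zero_ne_one hw

/-- nonnegativity on the powers and on the torus -/
theorem torus {d : ℕ} (D : Finset (Fin d)) (h : Fin d → ℂ) (hh : ∀ i ∈ D, ‖h i‖ = 1) :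
    ∃ S : Finset (Fin d → ℤ), ∀ C : Fin d → ℂ,
      (∀ m : ℕ, 0 ≤ (∑ i ∈ D, C i * h i ^ m).re) ↔
      ∀ w : Fin d → ℂ, (∀ i ∈ D, ‖w i‖ = 1) → (∀ e ∈ S, ∏ i ∈ D, w i ^ e i = 1) →
        0 ≤ (∑ i ∈ D, C i * w i).re := by
  classical
  obtain ⟨S, hS⟩ := IsNoetherian.noetherian (rel D h fun i hi => ne_of_norm (hh i hi))
  refine ⟨S, fun C => ⟨fun hpos w hw hwS => ?_, fun hpos m => ?_⟩⟩
  · by_contra hneg
    push Not at hneg
    -- all relations hold for `w`
    have hall : ∀ e : Fin d → ℤ, ∏ i ∈ D, h i ^ e i = 1 → ∏ i ∈ D, w i ^ e i = 1 := by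
      intro e he
      have h1 : e ∈ rel D h fun i hi => ne_of_norm (hh i hi) := he
      rw [← hS] at h1
      have h2 : Submodule.span ℤ (S : Set (Fin d → ℤ)) ≤
          rel D w fun i hi => ne_of_norm (hw i hi) := by
        rw [Submodule.span_le]
        intro e he
        exact hwS e he
      exact h2 h1
    set Z : ℝ := ∑ i ∈ D, ‖C i‖ with hZ
    have hZ0 : 0 ≤ Z := Finset.sum_nonneg fun i _ => norm_nonneg _
    set x : ℝ := (∑ i ∈ D, C i * w i).re with hx
    have hmon : ∀ (g : Fin d → ℂ) (e : ℕ → ℤ), mon (D.map Fin.valEmbedding) (ex g) e =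
        ∏ i ∈ D, g i ^ e i := by
      intro g e
      unfold mon
      rw [Finset.prod_map]
      refine Finset.prod_congr rfl fun i _ => ?_
      rw [Fin.valEmbedding_apply, ex_val]
    obtain ⟨t, -, ht⟩ := t_KRO (D.map Fin.valEmbedding) (ex h) (ex w) (by
      intro i hi
      obtain ⟨j, hj, rfl⟩ := Finset.mem_map.1 hi
      rw [Fin.valEmbedding_apply, ex_val, ex_val]
      exact ⟨hh j hj, hw j hj⟩) (by
      intro e he
      rw [hmon] at he ⊢
      exact hall (fun i => e i) he) (-x / (2 * (Z + 1))) (by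
        apply div_pos (by linarith)
        linarith) 0
    have h1 := hpos t
    have h2 : ∑ i ∈ D, C i * h i ^ t = ∑ i ∈ D, C i * w i + ∑ i ∈ D, C i * (h i ^ t - w i) := by
      rw [← Finset.sum_add_distrib]
      exact Finset.sum_congr rfl fun i _ => by ring
    have h3 : ‖∑ i ∈ D, C i * (h i ^ t - w i)‖ ≤ -x / 2 := by
      refine (norm_sum_le _ _).trans ?_
      calc ∑ i ∈ D, ‖C i * (h i ^ t - w i)‖ ≤ ∑ i ∈ D, ‖C i‖ * (-x / (2 * (Z + 1))) := by
            refine Finset.sum_le_sum fun i hi => ?_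
            rw [norm_mul]
            have h4 := ht i (Finset.mem_map.2 ⟨i, hi, rfl⟩)
            rw [ex_val, ex_val] at h4
            gcongr
        _ = Z * (-x / (2 * (Z + 1))) := by rw [← Finset.sum_mul]
        _ ≤ -x / 2 := by
            rw [mul_div_assoc', div_le_div_iff₀ (by positivity) (by norm_num)]
            nlinarith
    rw [h2, Complex.add_re] at h1
    have h4 := (Complex.re_le_norm (∑ i ∈ D, C i * (h i ^ t - w i))).trans h3
    have h5 : x < 0 := hneg
    have h6 : (∑ i ∈ D, C i * w i).re = x := rfl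
    linarith
  · refine hpos (fun i => h i ^ m) (fun i hi => by rw [norm_pow, hh i hi, one_pow]) ?_
    intro e he
    have h1 : e ∈ rel D h fun i hi => ne_of_norm (hh i hi) := by
      rw [← hS]
      exact Submodule.subset_span he
    have h2 : ∏ i ∈ D, h i ^ e i = 1 := h1
    have h3 : ∀ i ∈ D, (h i ^ m) ^ e i = (h i ^ e i) ^ m := by
      intro i _
      rw [← zpow_natCast, ← zpow_natCast, ← zpow_mul, ← zpow_mul, mul_comm]
    rw [Finset.prod_congr rfl h3, Finset.prod_pow, h2, one_pow]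

theorem alg_re {z : ℂ} (hz : IsAlgebraic ℚ z) : IsAlgebraic ℚ z.re ∧ IsAlgebraic ℚ z.im := by
  have hc : IsAlgebraic ℚ ((starRingEnd ℂ) z) := by
    obtain ⟨p, hp0, hp⟩ := hz
    refine ⟨p, hp0, ?_⟩
    have h1 := Polynomial.aeval_algHom_apply (Complex.conjAe.restrictScalars ℚ : ℂ ≃ₐ[ℚ] ℂ).toAlgHom
      z p
    have h2 : Polynomial.aeval ((starRingEnd ℂ) z) p = (starRingEnd ℂ) (Polynomial.aeval z p) := h1
    rw [h2, hp, map_zero]
  have hI : IsAlgebraic ℚ Complex.I := Complex.isIntegral_rat_I.isAlgebraic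
  have h2 : IsAlgebraic ℚ (2 : ℂ)⁻¹ := by
    have : IsAlgebraic ℚ (algebraMap ℚ ℂ 2⁻¹) := isAlgebraic_algebraMap _
    simpa using this
  constructor
  · have h1 : IsAlgebraic ℚ (algebraMap ℝ ℂ z.re) := by
      have h3 : (algebraMap ℝ ℂ z.re) = (z + (starRingEnd ℂ) z) * (2 : ℂ)⁻¹ := by
        rw [Complex.add_conj]
        simp
        ring
      rw [h3]
      exact (hz.add hc).mul h2
    exact (isAlgebraic_algebraMap_iff (algebraMap ℝ ℂ).injective).1 h1
  · have h1 : IsAlgebraic ℚ (algebraMap ℝ ℂ z.im) := by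
      have h3 : (algebraMap ℝ ℂ z.im) = -(z + -(starRingEnd ℂ) z) * (2 : ℂ)⁻¹ * Complex.I := by
        rw [← sub_eq_add_neg, Complex.sub_conj]
        simp
        ring_nf
        rw [Complex.I_sq]
        ring
      rw [h3]
      exact (((hz.add hc.neg).neg).mul h2).mul hI
    exact (isAlgebraic_algebraMap_iff (algebraMap ℝ ℂ).injective).1 h1

end Pool.Agent.TH717.SD
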