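import Mathlib
import Pool.Agent.TH717.SD.Cone

/-!
The cone of the real vectors for which a combination of powers is nonnegative is semialgebraic.
-/

set_option autoImplicit false

open Finset

namespace Pool.Agent.TH717.SD

open Pool.Agent.H581R2
open Pool.Agent.TH729.SQ

/-- the index type of the constants -/
abbrev Kc (d : ℕ) : Type := (Fin d × Fin d) ⊕ (Fin d × Fin d)

/-- the constants -/
def cst {d : ℕ} (c : Fin d → Fin d → ℂ) : Kc d → ℝ :=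
  Sum.elim (fun p => (c p.1 p.2).re) (fun p => (c p.1 p.2).im)

theorem cst_alg {d : ℕ} (c : Fin d → Fin d → ℂ) (hc : ∀ i k, IsAlgebraic ℚ (c i k)) (j : Kc d) :
    IsAlgebraic ℚ (cst c j) := by
  rcases j with j | j
  · exact (alg_re (hc _ _)).1
  · exact (alg_re (hc _ _)).2

theorem pf_zero' {ι : Type} : PF (fun _ : ι → ℝ => (0 : ℝ)) := PF.zero

theorem sap_cone {d : ℕ} (c : Fin d → Fin d → ℂ) (hc : ∀ i k, IsAlgebraic ℚ (c i k))
    (h : Fin d → ℂ) (D : Finset (Fin d)) (hh : ∀ i ∈ D, ‖h i‖ = 1) :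
    SAP (fun s : Fin d → ℝ =>
      ∀ m : ℕ, 0 ≤ (∑ i ∈ D, (∑ k, c i k * (s k : ℂ)) * h i ^ m).re) := by
  classical
  obtain ⟨S, hS⟩ := torus D h hh
  set P : ((Fin d ⊕ Fin d) ⊕ (Kc d ⊕ Fin d) → ℝ) → Prop := fun v =>
    (∀ i ∈ D, v (Sum.inl (Sum.inl i)) ^ 2 + v (Sum.inl (Sum.inr i)) ^ 2 = 1) →
    (∀ e ∈ S, ∏ i ∈ D, zp (⟨v (Sum.inl (Sum.inl i)), v (Sum.inl (Sum.inr i))⟩ : ℂ) (e i) = 1) →
    0 ≤ (∑ i ∈ D, (∑ k, (⟨v (Sum.inr (Sum.inl (Sum.inl (i, k)))),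
      v (Sum.inr (Sum.inl (Sum.inr (i, k))))⟩ : ℂ) * (⟨v (Sum.inr (Sum.inr k)), 0⟩ : ℂ)) *
        (⟨v (Sum.inl (Sum.inl i)), v (Sum.inl (Sum.inr i))⟩ : ℂ)).re with hP
  have hW : ∀ i : Fin d, PC (fun v : (Fin d ⊕ Fin d) ⊕ (Kc d ⊕ Fin d) → ℝ =>
      (⟨v (Sum.inl (Sum.inl i)), v (Sum.inl (Sum.inr i))⟩ : ℂ)) := fun i =>
    PC.mk (PF.coord _) (PF.coord _)
  have hPS : SAP P := by
    refine SAP.imp ?_ (SAP.imp ?_ ?_)
    · refine SAP.forall_mem D fun i _ => ?_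
      exact SAP.eq (((PF.coord _).pow 2).add ((PF.coord _).pow 2)) PF.one
    · refine SAP.forall_mem S fun e _ => ?_
      refine PC.eq_one (PC.prod D fun i => ?_)
      unfold zp
      exact ((hW i).pow _).mul (((hW i).conj).pow _)
    · refine SAP.le PF.zero (PC.sum D fun i => ?_).1
      refine PC.mul (PC.sum Finset.univ fun k => ?_) (hW i)
      exact (PC.mk (PF.coord _) (PF.coord _)).mul (PC.mk (PF.coord _) pf_zero')
  have h1 := SAP.forall_fun (Fin d ⊕ Fin d) (Kc d ⊕ Fin d) P hPS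
  have h2 := sap_spec _ h1 (cst c) (cst_alg c hc)
  refine h2.congr fun s => ?_
  rw [hS (fun i => ∑ k, c i k * (s k : ℂ))]
  have hnorm : ∀ x y : ℝ, ‖(⟨x, y⟩ : ℂ)‖ = 1 ↔ x ^ 2 + y ^ 2 = 1 := by
    intro x y
    rw [← sq_eq_sq₀ (norm_nonneg _) zero_le_one, one_pow, Complex.sq_norm, Complex.normSq_mk]
    constructor <;> intro h <;> nlinarith
  have hsum : ∀ w : Fin d → ℂ, ∑ i ∈ D, (∑ k, (⟨(c i k).re, (c i k).im⟩ : ℂ) *
      (⟨s k, 0⟩ : ℂ)) * w i = ∑ i ∈ D, (∑ k, c i k * (s k : ℂ)) * w i := fun w => rfl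
  constructor
  · intro hpos u hu huS
    set w : Fin d → ℂ := fun i => ⟨u (Sum.inl i), u (Sum.inr i)⟩ with hw
    have hw1 : ∀ i ∈ D, ‖w i‖ = 1 := fun i hi => (hnorm _ _).2 (hu i hi)
    have h3 := hpos w hw1 (by
      intro e he
      have h4 := huS e he
      rw [← h4]
      exact Finset.prod_congr rfl fun i hi => (zp_eq (hw1 i hi) _).symm)
    exact h3
  · intro hpos w hw hwS
    have h3 := hpos (Sum.elim (fun i => (w i).re) (fun i => (w i).im)) (by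
      intro i hi
      exact (hnorm _ _).1 (hw i hi)) (by
      intro e he
      rw [← hwS e he]
      exact Finset.prod_congr rfl fun i hi => zp_eq (hw i hi) _)
    exact h3

theorem sap_lin {d : ℕ} (c : Fin d → Fin d → ℂ) (hc : ∀ i k, IsAlgebraic ℚ (c i k))
    (D : Finset (Fin d)) :
    SAP (fun s : Fin d → ℝ => ∑ i ∈ D, ∑ k, c i k * (s k : ℂ) = 0) := by
  classical
  have h1 : SAP (fun v : Kc d ⊕ Fin d → ℝ => ∑ i ∈ D, ∑ k, (⟨v (Sum.inl (Sum.inl (i, k))),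
      v (Sum.inl (Sum.inr (i, k)))⟩ : ℂ) * (⟨v (Sum.inr k), 0⟩ : ℂ) = 0) := by
    refine PC.eq_zero (PC.sum D fun i => PC.sum Finset.univ fun k => ?_)
    exact (PC.mk (PF.coord _) (PF.coord _)).mul (PC.mk (PF.coord _) pf_zero')
  exact (sap_spec _ h1 (cst c) (cst_alg c hc)).congr fun s => Iff.rfl

end Pool.Agent.TH717.SD
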