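import Mathlib
import Pool.Agent.TH717.SK.Thr
import Pool.Agent.TH717.ST.GroS
import Pool.Agent.TH717.SD.Cone2

/-!
A criterion for nonnegativity of the sequences of a fixed simple recurrence.
-/

set_option autoImplicit false

open Finset Polynomial Filter Topology

namespace Pool.Agent.TH717.SD

open NumberField
open Pool.Agent.H692R2.USS
open Pool.Agent.TH286.GT.GrowD (sg sg_coe sg_inj exists_field exists_exp)
open Pool.Agent.TH717.SK
open Pool.Agent.TH717.ST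
open Pool.Agent.H581R2

section data

variable {K : Type} [Field K] [NumberField K] [DecidableEq (𝓞 K)]

variable [IsGalois ℚ K]

theorem crit_KS (ψ : K →+* ℂ) (cj : K ≃ₐ[ℚ] K)
    (hcj : ∀ x, ψ (cj x) = (starRingEnd ℂ) (ψ x)) (iK : 𝓞 K) (hi : ψ (iK : K) = Complex.I)
    {f : ℤ[X]} (hf : f.Monic) (hd : 1 ≤ f.natDegree) (q : Fin f.natDegree → (𝓞 K)[X])
    (rt : Fin f.natDegree → 𝓞 K)
    (hq : ∀ i, (q i).natDegree < f.natDegree) (hrt : ∀ i, rt i ≠ 0)
    (hdvd : ∀ i, f.map (algebraMap ℤ (𝓞 K)) ∣ (X - C (rt i)) ^ 1 * q i)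
    (hM : (Matrix.of fun i k : Fin f.natDegree => (q i).coeff k).det ≠ 0)
    (hG : ∀ σ : K ≃ₐ[ℚ] K, ∃ π : Fin f.natDegree → Fin f.natDegree,
      ∀ i, (q i).map (sg σ) = q (π i) ∧ sg σ (rt i) = rt (π i))
    (hMC : (Matrix.of fun i k : Fin f.natDegree => (q i).coeff k) *
        (Pool.Agent.TH717.ST.comp f).map (Int.castRingHom (𝓞 K)) =
        Matrix.diagonal rt * Matrix.of fun i k : Fin f.natDegree => (q i).coeff k)
    (L : ℕ) (hL : 1 ≤ L)
    (hnd : ∀ i i', (∃ k : ℕ, 1 ≤ k ∧ (rt i ^ L) ^ k = (rt i' ^ L) ^ k) →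
      rt i ^ L = rt i' ^ L) :
    ∃ B : ℝ, 0 < B ∧ ∃ Q : (Fin f.natDegree → ℝ) → Prop, SAP Q ∧
      ∀ u : ℕ → ℤ, Ann f u → ∀ A : ℝ, 1 ≤ A →
      (∀ k < f.natDegree, |(u k : ℝ)| ≤ A) →
      ((∀ n, 0 ≤ u n) ↔ (∀ n : ℕ, (n : ℝ) ≤ B * (1 + Real.log A) → 0 ≤ u n) ∧
        ∀ rr < L, Q (fun k => ((u (rr + k) : ℤ) : ℝ))) := by
  classical
  have hinj : ∀ x : Fin f.natDegree → K,
      (∀ i, ∑ k : Fin f.natDegree, ((q i).coeff k : K) * x k = 0) → x = 0 := by
    intro x hx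
    have hMK : ((Matrix.of fun i k : Fin f.natDegree => (q i).coeff k).map
        (algebraMap (𝓞 K) K)).det ≠ 0 := by
      rw [← RingHom.mapMatrix_apply, ← RingHom.map_det]
      intro h
      rw [map_eq_zero_iff _ RingOfIntegers.coe_injective] at h
      exact hM h
    exact Matrix.eq_zero_of_mulVec_eq_zero hMK (funext fun i => hx i)
  obtain ⟨D0, ε0, hD0, hε0⟩ := exists_eps hd (fun i k => (q i).coeff k) hinj
  obtain ⟨π, hπ⟩ := hG cj
  obtain ⟨D, ε, hD, hε, hreal⟩ := exists_real ψ cj hcj q rt π hπ D0 hD0 ε0 hε0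
  set φ : 𝓞 K →+* ℂ := ψ.comp (algebraMap (𝓞 K) K) with hφ
  have hφψ : ∀ x : 𝓞 K, ψ (x : K) = φ x := fun x => rfl
  have hφinj : Function.Injective φ := ψ.injective.comp RingOfIntegers.coe_injective
  have hφrt : ∀ i, φ (rt i) ≠ 0 := fun i h =>
    hrt i (hφinj (by rw [h, map_zero]))
  set r : Fin f.natDegree → ℝ := fun i => ‖φ (rt i)‖ with hr
  have hr0 : ∀ i, 0 < r i := fun i => norm_pos_iff.2 (hφrt i)
  -- sizes
  choose Bi hBi0 hBi using fun i => bound φ (f.map (algebraMap ℤ (𝓞 K))) (hf.map _) (q i) (rt i)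
    (hφrt i) 1 (hdvd i)
  set Rs : Finset ℝ := Finset.univ.image r with hRs
  have hRspos : ∀ ρ ∈ Rs, 0 < ρ := by
    intro ρ hρ
    obtain ⟨i, -, rfl⟩ := Finset.mem_image.1 hρ
    exact hr0 i
  obtain ⟨δ, hδ, hgap⟩ := exists_gap Rs
  set C0 : ℝ := 1 + ∑ i, ‖φ (ε i)‖ * Bi i with hC0
  have hC01 : 1 ≤ C0 := by
    have : 0 ≤ ∑ i, ‖φ (ε i)‖ * Bi i :=
      Finset.sum_nonneg fun i _ => mul_nonneg (norm_nonneg _) (hBi0 i)
    rw [hC0]
    linarith
  have hlogC0 : 0 ≤ Real.log C0 := Real.log_nonneg hC01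
  -- the bounds for the parts
  have hpb : ∀ ρ ∈ Rs, ∃ B : ℝ, 0 < B ∧ ∀ u : ℕ → ℤ, Ann f u → ∀ A : ℝ, 1 ≤ A →
      (∀ k < f.natDegree, |(u k : ℝ)| ≤ A) → ∀ n : ℕ,
      ‖ψ ((∑ i with ‖ψ (rt i : K)‖ = ρ, ε i * vv (q i) u n : 𝓞 K) : K)‖ ≤
        (Real.exp (-δ) * ρ) ^ n →
      (n : ℝ) ≤ B * (1 + Real.log A) ∨
        CS (fun i => rt i ^ L) (fun i => if ‖ψ (rt i : K)‖ = ρ then ε i else 0) q u n :=
    fun ρ hρ => part_boundS ψ cj hcj iK hi hf hd q rt hq hrt hdvd hM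
      hG hMC ε L hL hnd ρ (hRspos ρ hρ) δ hδ
  choose! Bp hBp0 hBp using hpb
  set B : ℝ := ∑ ρ ∈ Rs, Bp ρ + (Real.log C0 + 1) / δ with hB
  have hBp' : ∀ ρ ∈ Rs, Bp ρ ≤ B := by
    intro ρ hρ
    have h1 := Finset.single_le_sum (f := Bp) (fun ρ hρ => (hBp0 ρ hρ).le) hρ
    have h2 : 0 ≤ (Real.log C0 + 1) / δ := by positivity
    rw [hB]
    linarith
  have hB2 : (Real.log C0 + 1) / δ ≤ B := by
    have : 0 ≤ ∑ ρ ∈ Rs, Bp ρ := Finset.sum_nonneg fun ρ hρ => (hBp0 ρ hρ).le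
    rw [hB]
    linarith
  have hBpos : 0 < B := lt_of_lt_of_le (by positivity) hB2
  -- the predicate
  set c : Fin f.natDegree → Fin f.natDegree → ℂ := fun i k => φ (ε i * (q i).coeff k) with hc
  have hcalg : ∀ i k, IsAlgebraic ℚ (c i k) := by
    intro i k
    have h1 : IsIntegral ℤ (((ε i * (q i).coeff k : 𝓞 K)) : K) := RingOfIntegers.isIntegral_coe _
    have h2 : IsIntegral ℤ (ψ (((ε i * (q i).coeff k : 𝓞 K)) : K)) :=
      h1.map (ψ.toIntAlgHom)
    exact (h2.tower_top (A := ℚ)).isAlgebraic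
  set Dr : ℝ → Finset (Fin f.natDegree) := fun ρ => Finset.univ.filter fun i => r i = ρ with hDr
  set Da : 𝓞 K → ℝ → Finset (Fin f.natDegree) := fun a ρ =>
    Finset.univ.filter fun i => rt i ^ L = a ∧ r i = ρ with hDa
  set Cls : Finset (𝓞 K) := Finset.univ.image fun i => rt i ^ L with hCls
  set hh : ℝ → Fin f.natDegree → ℂ := fun ρ i => φ (rt i) ^ L / (ρ : ℂ) ^ L with hhh
  set CRs : ℝ → (Fin f.natDegree → ℝ) → Prop := fun ρ s =>
    ∀ a ∈ Cls, ∑ i ∈ Da a ρ, ∑ k, c i k * (s k : ℂ) = 0 with hCRs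
  set Ks : ℝ → (Fin f.natDegree → ℝ) → Prop := fun ρ s =>
    ∀ m : ℕ, 0 ≤ (∑ i ∈ Dr ρ, (∑ k, c i k * (s k : ℂ)) * hh ρ i ^ m).re with hKs
  have hunit : ∀ ρ ∈ Rs, ∀ i ∈ Dr ρ, ‖hh ρ i‖ = 1 := by
    intro ρ hρ i hi'
    have hρ0 := hRspos ρ hρ
    have h2 : r i = ρ := (Finset.mem_filter.1 hi').2
    have h3 : ‖φ (rt i)‖ = ρ := h2
    rw [hhh]
    simp only
    rw [norm_div, norm_pow, norm_pow, Complex.norm_real, Real.norm_eq_abs, abs_of_pos hρ0, h3]
    exact div_self (by positivity)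
  refine ⟨B, hBpos, fun s => (∀ ρ ∈ Rs, CRs ρ s) ∨ ∃ ρ ∈ Rs, ¬ CRs ρ s ∧
    (∀ ρ' ∈ Rs, ρ < ρ' → CRs ρ' s) ∧ Ks ρ s, ?_, ?_⟩
  · have hCRSAP : ∀ ρ, SAP (CRs ρ) := fun ρ =>
      SAP.forall_mem Cls fun a _ => sap_lin c hcalg (Da a ρ)
    refine SAP.or (SAP.forall_mem Rs fun ρ _ => hCRSAP ρ) (SAP.exists_mem Rs fun ρ hρ => ?_)
    refine SAP.and (hCRSAP ρ).not (SAP.and (SAP.forall_mem Rs fun ρ' _ => ?_) ?_)
    · exact SAP.imp (SAP.const _) (hCRSAP ρ')
    · exact sap_cone c hcalg (hh ρ) (Dr ρ) (hunit ρ hρ)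
  intro u hu A hA hk
  have hA0 : 0 < A := by linarith
  have hlogA : 0 ≤ Real.log A := Real.log_nonneg hA
  -- the parts
  set lam : ℝ → ℕ → 𝓞 K := fun ρ n => ∑ i with ‖ψ (rt i : K)‖ = ρ, ε i * vv (q i) u n with hlam
  set CR : ℝ → ℕ → Prop := fun ρ n =>
    CS (fun i => rt i ^ L) (fun i => if ‖ψ (rt i : K)‖ = ρ then ε i else 0) q u n with hCR
  have hE1 : ∀ i n, ∑ k, c i k * (((((u (n + (k : ℕ)) : ℤ) : ℝ)) : ℝ) : ℂ) =
      φ (ε i * vv (q i) u n) := by
    intro i n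
    rw [vv_eq _ _ _ (hq i), Finset.mul_sum, map_sum]
    refine Finset.sum_congr rfl fun k _ => ?_
    rw [← mul_assoc, map_mul, map_intCast]
    push_cast
    rfl
  have hE2 : ∀ ρ n, CRs ρ (fun k => ((u (n + k) : ℤ) : ℝ)) ↔ CR ρ n := by
    intro ρ n
    have h1 : ∀ a, ∑ i ∈ Da a ρ, ∑ k, c i k * (((((u (n + (k : ℕ)) : ℤ) : ℝ)) : ℝ) : ℂ) =
        φ (∑ i with rt i ^ L = a, (if ‖ψ (rt i : K)‖ = ρ then ε i else 0) * vv (q i) u n) := by
      intro a
      rw [map_sum, hDa]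
      simp only
      have hff : (Finset.univ.filter fun i => rt i ^ L = a ∧ r i = ρ) =
          (Finset.univ.filter fun i => rt i ^ L = a).filter fun i => r i = ρ :=
        (Finset.filter_filter _ _ _).symm
      rw [hff, Finset.sum_filter]
      refine Finset.sum_congr rfl fun i _ => ?_
      by_cases h2 : r i = ρ
      · have h3 : ‖ψ (rt i : K)‖ = ρ := h2
        rw [if_pos h2, if_pos h3, hE1]
      · have h3 : ¬ ‖ψ (rt i : K)‖ = ρ := h2
        rw [if_neg h2, if_neg h3, zero_mul, map_zero]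
    constructor
    · intro h a
      by_cases ha : a ∈ Cls
      · have h2 := h a ha
        rw [h1] at h2
        exact hφinj (by rw [h2, map_zero])
      · refine Finset.sum_eq_zero fun i hi' => ?_
        exfalso
        apply ha
        rw [← (Finset.mem_filter.1 hi').2]
        exact Finset.mem_image_of_mem _ (Finset.mem_univ i)
    · intro h a _
      rw [h1, h a, map_zero]
  have hsh : ∀ i m s, vv (q i) u (m + s) = rt i ^ s * vv (q i) u m := fun i m s =>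
    shift_simple (q i) (rt i) (hdvd i) u hu m s
  have hE3 : ∀ ρ n m, CR ρ (n + L * m) ↔ CR ρ n := by
    intro ρ n m
    have h1 : ∀ a, ∑ i with rt i ^ L = a,
        (if ‖ψ (rt i : K)‖ = ρ then ε i else 0) * vv (q i) u (n + L * m) =
        a ^ m * ∑ i with rt i ^ L = a,
          (if ‖ψ (rt i : K)‖ = ρ then ε i else 0) * vv (q i) u n := by
      intro a
      rw [Finset.mul_sum]
      refine Finset.sum_congr rfl fun i hi' => ?_
      rw [hsh, pow_mul, (Finset.mem_filter.1 hi').2]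
      ring
    constructor
    · intro h a
      by_cases ha : a = 0
      · refine Finset.sum_eq_zero fun i hi' => ?_
        exfalso
        have h2 := (Finset.mem_filter.1 hi').2
        rw [ha] at h2
        exact pow_ne_zero _ (hrt i) h2
      · have h2 := h a
        have h3 := (h1 a).symm.trans h2
        exact (mul_eq_zero.1 h3).resolve_left (pow_ne_zero _ ha)
    · intro h a
      have h2 : ∑ i with rt i ^ L = a,
          (if ‖ψ (rt i : K)‖ = ρ then ε i else 0) * vv (q i) u n = 0 := h a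
      refine (h1 a).trans ?_
      rw [h2, mul_zero]
  -- decomposition
  have hdec : ∀ n, ((D * u n : ℤ) : ℂ) = ∑ ρ ∈ Rs, φ (lam ρ n) := by
    intro n
    have h1 := value q hq D ε hε hd u n
    have h2 := congrArg φ h1
    rw [map_intCast] at h2
    rw [h2, ← Finset.sum_fiberwise_of_maps_to (g := r) (t := Rs)
      (fun i _ => Finset.mem_image_of_mem _ (Finset.mem_univ i)), map_sum]
    rfl
  have hzero : ∀ ρ n, CR ρ n → lam ρ n = 0 := by
    intro ρ n hcr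
    have h1 := class_sum (fun i => rt i ^ L)
      (fun i => (if ‖ψ (rt i : K)‖ = ρ then ε i else 0) * vv (q i) u n) hcr (fun _ => 1)
    rw [hlam]
    simp only
    rw [Finset.sum_filter]
    refine Eq.trans ?_ h1
    refine Finset.sum_congr rfl fun i _ => ?_
    split_ifs <;> ring
  -- the size of the parts
  have hvs : ∀ i n, ‖φ (vv (q i) u n)‖ ≤ Bi i * A * r i ^ n := by
    intro i n
    have h1 := hBi i _ (ann_cast hu) A hA0.le (by
      rw [hf.natDegree_map]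
      intro k hk'
      rw [map_intCast, Complex.norm_intCast]
      exact hk k hk') 0
    have h2 := hsh i 0 n
    rw [zero_add] at h2
    rw [h2, map_mul, map_pow, norm_mul, norm_pow]
    have h3 : ‖φ (vv (q i) u 0)‖ ≤ Bi i * A := by
      refine h1.trans (le_of_eq ?_)
      simp
    calc ‖φ (rt i)‖ ^ n * ‖φ (vv (q i) u 0)‖ ≤ r i ^ n * (Bi i * A) := by
          rw [hr]
          gcongr
      _ = _ := by ring
  have hlamsize : ∀ ρ n, ‖φ (lam ρ n)‖ ≤ (∑ i with r i = ρ, ‖φ (ε i)‖ * Bi i) * A * ρ ^ n := by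
    intro ρ n
    rw [hlam]
    simp only
    rw [map_sum]
    refine (norm_sum_le _ _).trans ?_
    rw [Finset.sum_mul, Finset.sum_mul]
    refine Finset.sum_le_sum fun i hi' => ?_
    rw [map_mul, norm_mul]
    have h1 := hvs i n
    have h2 : r i = ρ := (Finset.mem_filter.1 hi').2
    rw [h2] at h1
    calc ‖φ (ε i)‖ * ‖φ (vv (q i) u n)‖ ≤ ‖φ (ε i)‖ * (Bi i * A * ρ ^ n) := by gcongr
      _ = _ := by ring
  -- the rest
  have hrestb : ∀ ρ ∈ Rs, ∀ n, (∀ ρ' ∈ Rs, ρ < ρ' → CR ρ' n) →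
      ‖∑ ρ' ∈ Rs.erase ρ, φ (lam ρ' n)‖ ≤ C0 * A * (Real.exp (-(2 * δ)) * ρ) ^ n := by
    intro ρ hρRs n hbig
    have hρ0 := hRspos ρ hρRs
    refine (norm_sum_le _ _).trans ?_
    have h1 : ∀ ρ' ∈ Rs.erase ρ, ‖φ (lam ρ' n)‖ ≤
        (∑ i with r i = ρ', ‖φ (ε i)‖ * Bi i) * (A * (Real.exp (-(2 * δ)) * ρ) ^ n) := by
      intro ρ' hρ'
      rw [Finset.mem_erase] at hρ'
      have hs0 : 0 ≤ ∑ i with r i = ρ', ‖φ (ε i)‖ * Bi i :=
        Finset.sum_nonneg fun i _ => mul_nonneg (norm_nonneg _) (hBi0 i)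
      rcases lt_or_gt_of_ne hρ'.1 with h2 | h2
      · have h3 := hgap ρ' hρ'.2 ρ hρRs h2
        have h4 : ρ' ≤ Real.exp (-(2 * δ)) * ρ := by
          have h5 : ρ' = Real.exp (-(2 * δ)) * (ρ' * Real.exp (2 * δ)) := by
            rw [mul_left_comm, ← Real.exp_add]
            simp
          rw [h5]
          gcongr
        have h6 := hRspos ρ' hρ'.2
        calc ‖φ (lam ρ' n)‖ ≤
            (∑ i with r i = ρ', ‖φ (ε i)‖ * Bi i) * A * ρ' ^ n := hlamsize _ _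
          _ ≤ (∑ i with r i = ρ', ‖φ (ε i)‖ * Bi i) * A *
              (Real.exp (-(2 * δ)) * ρ) ^ n := by gcongr
          _ = _ := by ring
      · rw [hzero ρ' n (hbig ρ' hρ'.2 h2), map_zero, norm_zero]
        positivity
    refine (Finset.sum_le_sum h1).trans ?_
    rw [← Finset.sum_mul]
    have h2 : ∑ ρ' ∈ Rs.erase ρ, ∑ i with r i = ρ', ‖φ (ε i)‖ * Bi i ≤ C0 := by
      calc ∑ ρ' ∈ Rs.erase ρ, ∑ i with r i = ρ', ‖φ (ε i)‖ * Bi i ≤
          ∑ ρ' ∈ Rs, ∑ i with r i = ρ', ‖φ (ε i)‖ * Bi i := by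
            refine Finset.sum_le_sum_of_subset_of_nonneg (Finset.erase_subset _ _) fun ρ' _ _ => ?_
            exact Finset.sum_nonneg fun i _ => mul_nonneg (norm_nonneg _) (hBi0 i)
        _ = ∑ i, ‖φ (ε i)‖ * Bi i :=
            Finset.sum_fiberwise_of_maps_to
              (fun i _ => Finset.mem_image_of_mem _ (Finset.mem_univ i)) _
        _ ≤ C0 := by rw [hC0]; linarith
    calc _ ≤ C0 * (A * (Real.exp (-(2 * δ)) * ρ) ^ n) := by gcongr
      _ = _ := by ring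
  have hre : ∀ ρ ∈ Rs, ∀ n, ((D * u n : ℤ) : ℝ) = (φ (lam ρ n)).re +
      (∑ ρ' ∈ Rs.erase ρ, φ (lam ρ' n)).re := by
    intro ρ hρRs n
    have h0 := hdec n
    rw [← Finset.add_sum_erase _ _ hρRs] at h0
    have h1 := congrArg Complex.re h0
    rw [Complex.add_re] at h1
    rw [← h1]
    simp
  have hE4 : ∀ ρ ∈ Rs, ∀ n m, φ (lam ρ (n + L * m)) = (ρ : ℂ) ^ (L * m) *
      ∑ i ∈ Dr ρ, (∑ k, c i k * (((((u (n + (k : ℕ)) : ℤ) : ℝ)) : ℝ) : ℂ)) * hh ρ i ^ m := by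
    intro ρ hρRs n m
    have hρ0 := hRspos ρ hρRs
    have hρC : (ρ : ℂ) ≠ 0 := by exact_mod_cast hρ0.ne'
    rw [hlam]
    simp only
    rw [map_sum, Finset.mul_sum]
    refine Finset.sum_congr rfl fun i _ => ?_
    rw [hE1, hsh, map_mul, map_mul, map_pow, map_mul, hhh]
    simp only
    rw [div_pow, ← pow_mul, ← pow_mul]
    field_simp
  constructor
  · intro hpos
    refine ⟨fun n _ => hpos n, fun rr _ => ?_⟩
    by_cases hF : ∀ ρ ∈ Rs, CRs ρ (fun k => ((u (rr + k) : ℤ) : ℝ))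
    · exact Or.inl hF
    right
    push Not at hF
    set F : Finset ℝ := Rs.filter (fun ρ => ¬ CRs ρ (fun k => ((u (rr + k) : ℤ) : ℝ))) with hFdef
    have hFne : F.Nonempty := by
      obtain ⟨ρ, h1, h2⟩ := hF
      exact ⟨ρ, Finset.mem_filter.2 ⟨h1, h2⟩⟩
    set ρ := F.max' hFne with hρdef
    have hρF : ρ ∈ F := F.max'_mem hFne
    have hρRs : ρ ∈ Rs := (Finset.mem_filter.1 hρF).1
    have hρn : ¬ CRs ρ (fun k => ((u (rr + k) : ℤ) : ℝ)) := (Finset.mem_filter.1 hρF).2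
    have hρ0 : 0 < ρ := hRspos ρ hρRs
    have hbig : ∀ ρ' ∈ Rs, ρ < ρ' → CRs ρ' (fun k => ((u (rr + k) : ℤ) : ℝ)) := by
      intro ρ' h1 h2
      by_contra h3
      exact absurd (F.le_max' ρ' (Finset.mem_filter.2 ⟨h1, h3⟩)) (not_le.2 h2)
    refine ⟨ρ, hρRs, hρn, hbig, ?_⟩
    intro m0
    by_contra hneg
    push Not at hneg
    set Cc : Fin f.natDegree → ℂ := fun i =>
      ∑ k, c i k * (((((u (rr + (k : ℕ)) : ℤ) : ℝ)) : ℝ) : ℂ) with hCc
    set x : ℝ := (∑ i ∈ Dr ρ, Cc i * hh ρ i ^ m0).re with hx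
    have hxneg : x < 0 := hneg
    set Z : ℝ := ∑ i ∈ Dr ρ, ‖Cc i‖ with hZ
    have hZ0 : 0 ≤ Z := Finset.sum_nonneg fun i _ => norm_nonneg _
    have hdecay : ∃ M1 : ℕ, ∀ m, M1 ≤ m →
        (Real.exp (-(2 * δ))) ^ (L * m) * (C0 * A * (ρ + 1) ^ rr) ≤ -x / 4 := by
      have h1 : Real.exp (-(2 * δ)) < 1 := Real.exp_lt_one_iff.2 (by linarith)
      have hW : 0 < C0 * A * (ρ + 1) ^ rr := by positivity
      obtain ⟨M1, hM1⟩ := exists_pow_lt_of_lt_one
        (show (0 : ℝ) < (-x / 4) / (C0 * A * (ρ + 1) ^ rr) by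
          apply div_pos _ hW
          linarith) h1
      refine ⟨M1, fun m hm => ?_⟩
      rw [lt_div_iff₀ hW] at hM1
      refine le_trans ?_ hM1.le
      apply mul_le_mul_of_nonneg_right _ hW.le
      exact pow_le_pow_of_le_one (Real.exp_pos _).le h1.le (by nlinarith)
    obtain ⟨M1, hM1⟩ := hdecay
    obtain ⟨m, hm, hγ⟩ := recur (fun i => if r i = ρ then hh ρ i else 1)
      (by
        intro i
        split_ifs with h
        · exact hunit ρ hρRs i (Finset.mem_filter.2 ⟨Finset.mem_univ i, h⟩)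
        · simp) (-x / (4 * (Z + 1))) (by
          apply div_pos (by linarith)
          linarith) M1
    have h1 := hE4 ρ hρRs rr (m0 + m)
    have h2 : ∑ i ∈ Dr ρ, Cc i * hh ρ i ^ (m0 + m) = ∑ i ∈ Dr ρ, Cc i * hh ρ i ^ m0 +
        ∑ i ∈ Dr ρ, Cc i * hh ρ i ^ m0 * (hh ρ i ^ m - 1) := by
      rw [← Finset.sum_add_distrib]
      exact Finset.sum_congr rfl fun i _ => by ring
    have h3 : ‖∑ i ∈ Dr ρ, Cc i * hh ρ i ^ m0 * (hh ρ i ^ m - 1)‖ ≤ -x / 4 := by
      refine (norm_sum_le _ _).trans ?_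
      calc ∑ i ∈ Dr ρ, ‖Cc i * hh ρ i ^ m0 * (hh ρ i ^ m - 1)‖ ≤
          ∑ i ∈ Dr ρ, ‖Cc i‖ * (-x / (4 * (Z + 1))) := by
            refine Finset.sum_le_sum fun i hi' => ?_
            rw [norm_mul, norm_mul, norm_pow, hunit ρ hρRs i hi', one_pow, mul_one]
            have h3 := hγ i
            rw [if_pos (Finset.mem_filter.1 hi').2] at h3
            gcongr
        _ = Z * (-x / (4 * (Z + 1))) := by rw [← Finset.sum_mul]
        _ ≤ -x / 4 := by
            rw [mul_div_assoc', div_le_div_iff₀ (by positivity) (by norm_num)]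
            nlinarith
    have h4 : (φ (lam ρ (rr + L * (m0 + m)))).re ≤ ρ ^ (L * (m0 + m)) * (3 / 4 * x) := by
      rw [h1]
      have h5 : ((ρ : ℂ) ^ (L * (m0 + m)) * ∑ i ∈ Dr ρ, Cc i * hh ρ i ^ (m0 + m)).re =
          ρ ^ (L * (m0 + m)) * (∑ i ∈ Dr ρ, Cc i * hh ρ i ^ (m0 + m)).re := by
        rw [← Complex.ofReal_pow, Complex.re_ofReal_mul]
      rw [h5, h2, Complex.add_re]
      have h6 := (Complex.re_le_norm
        (∑ i ∈ Dr ρ, Cc i * hh ρ i ^ m0 * (hh ρ i ^ m - 1))).trans h3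
      have h7 : 0 < ρ ^ (L * (m0 + m)) := by positivity
      apply mul_le_mul_of_nonneg_left _ h7.le
      linarith
    have h5 : ‖∑ ρ' ∈ Rs.erase ρ, φ (lam ρ' (rr + L * (m0 + m)))‖ ≤
        ρ ^ (L * (m0 + m)) * (-x / 4) := by
      refine (hrestb ρ hρRs _ (fun ρ' h1 h2 => (hE3 ρ' rr _).2 ((hE2 ρ' rr).1
        (hbig ρ' h1 h2)))).trans ?_
      have h6 := hM1 (m0 + m) (by omega)
      have hexp1 : Real.exp (-(2 * δ)) ≤ 1 := Real.exp_le_one_iff.2 (by linarith)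
      have h7 : (Real.exp (-(2 * δ)) * ρ) ^ (rr + L * (m0 + m)) ≤
          (ρ + 1) ^ rr * (Real.exp (-(2 * δ)) ^ (L * (m0 + m)) * ρ ^ (L * (m0 + m))) := by
        rw [pow_add, mul_pow _ _ (L * (m0 + m))]
        apply mul_le_mul_of_nonneg_right _ (by positivity)
        apply pow_le_pow_left₀ (by positivity)
        nlinarith
      calc C0 * A * (Real.exp (-(2 * δ)) * ρ) ^ (rr + L * (m0 + m)) ≤
          C0 * A * ((ρ + 1) ^ rr *
            (Real.exp (-(2 * δ)) ^ (L * (m0 + m)) * ρ ^ (L * (m0 + m)))) := by gcongr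
        _ = ρ ^ (L * (m0 + m)) *
            (Real.exp (-(2 * δ)) ^ (L * (m0 + m)) * (C0 * A * (ρ + 1) ^ rr)) := by ring
        _ ≤ ρ ^ (L * (m0 + m)) * (-x / 4) := by gcongr
    have h6 := hre ρ hρRs (rr + L * (m0 + m))
    have h7 := Complex.re_le_norm (∑ ρ' ∈ Rs.erase ρ, φ (lam ρ' (rr + L * (m0 + m))))
    have h8 : ((D * u (rr + L * (m0 + m)) : ℤ) : ℝ) < 0 := by
      rw [h6]
      have h3 : 0 < ρ ^ (L * (m0 + m)) := by positivity
      nlinarith
    have h9 : D * u (rr + L * (m0 + m)) < 0 := by exact_mod_cast h8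
    have h10 := mul_nonneg hD.le (hpos (rr + L * (m0 + m)))
    omega
  · rintro ⟨hsm, hQ⟩ n
    by_cases hn : (n : ℝ) ≤ B * (1 + Real.log A)
    · exact hsm n hn
    push Not at hn
    have hmod : n = n % L + L * (n / L) := (Nat.mod_add_div n L).symm
    have hCRn : ∀ ρ, CRs ρ (fun k => ((u (n % L + k) : ℤ) : ℝ)) ↔ CR ρ n := by
      intro ρ
      rw [hE2]
      conv_rhs => rw [hmod]
      exact (hE3 ρ (n % L) (n / L)).symm
    rcases hQ (n % L) (Nat.mod_lt _ (by omega)) with hall | ⟨ρ, hρRs, hρn, hbig, hK⟩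
    · have h1 := hdec n
      rw [Finset.sum_eq_zero (fun ρ hρ => by
        rw [hzero ρ n ((hCRn ρ).1 (hall ρ hρ)), map_zero])] at h1
      have h2 : D * u n = 0 := by exact_mod_cast h1
      rw [(mul_eq_zero.1 h2).resolve_left hD.ne']
    · have hρ0 := hRspos ρ hρRs
      have hcr : ¬ CR ρ n := fun h => hρn ((hCRn ρ).2 h)
      have hpart : (Real.exp (-δ) * ρ) ^ n < ‖φ (lam ρ n)‖ := by
        by_contra h
        push Not at h
        rcases hBp ρ hρRs u hu A hA hk n h with h1 | h1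
        · have h2 := hBp' ρ hρRs
          have h3 : Bp ρ * (1 + Real.log A) ≤ B * (1 + Real.log A) :=
            mul_le_mul_of_nonneg_right h2 (by linarith)
          linarith
        · exact hcr h1
      set x : ℝ := (φ (lam ρ n)).re with hx
      have hxeq : φ (lam ρ n) = (x : ℂ) := by
        apply Complex.ext
        · rw [Complex.ofReal_re]
        · rw [Complex.ofReal_im]
          exact hreal ρ u n
      have hxabs : (Real.exp (-δ) * ρ) ^ n < |x| := by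
        rw [hxeq, Complex.norm_real, Real.norm_eq_abs] at hpart
        exact hpart
      have hx0 : 0 ≤ x := by
        have h1 := hE4 ρ hρRs (n % L) (n / L)
        rw [← hmod] at h1
        rw [hx, h1, ← Complex.ofReal_pow, Complex.re_ofReal_mul]
        exact mul_nonneg (by positivity) (hK (n / L))
      rw [abs_of_nonneg hx0] at hxabs
      have hsmall : C0 * A * (Real.exp (-(2 * δ)) * ρ) ^ n < x := by
        refine lt_of_le_of_lt ?_ hxabs
        have h1 : (Real.exp (-(2 * δ)) * ρ) ^ n =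
            Real.exp (-(δ * n)) * (Real.exp (-δ) * ρ) ^ n := by
          rw [mul_pow, mul_pow, ← Real.exp_nat_mul, ← Real.exp_nat_mul, ← mul_assoc,
            ← Real.exp_add]
          congr 2
          ring
        rw [h1, ← mul_assoc]
        have h2 : C0 * A * Real.exp (-(δ * n)) ≤ 1 := by
          have h3 : C0 * A = Real.exp (Real.log C0 + Real.log A) := by
            rw [Real.exp_add, Real.exp_log (by linarith), Real.exp_log hA0]
          rw [h3, ← Real.exp_add, Real.exp_le_one_iff]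
          have h4 : (Real.log C0 + 1) / δ * (1 + Real.log A) < n := by
            refine lt_of_le_of_lt ?_ hn
            exact mul_le_mul_of_nonneg_right hB2 (by linarith)
          have h5 : (Real.log C0 + 1) * (1 + Real.log A) < δ * n := by
            rw [div_mul_eq_mul_div, div_lt_iff₀ hδ] at h4
            linarith
          nlinarith
        have h6 : 0 ≤ (Real.exp (-δ) * ρ) ^ n := by positivity
        calc C0 * A * Real.exp (-(δ * n)) * (Real.exp (-δ) * ρ) ^ n ≤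
            1 * (Real.exp (-δ) * ρ) ^ n := by gcongr
          _ = _ := one_mul _
      have h1 := hre ρ hρRs n
      have h2 := hrestb ρ hρRs n (fun ρ' h3 h4 => (hCRn ρ').1 (hbig ρ' h3 h4))
      have h3 := Complex.abs_re_le_norm (∑ ρ' ∈ Rs.erase ρ, φ (lam ρ' n))
      have h4 := neg_abs_le (∑ ρ' ∈ Rs.erase ρ, φ (lam ρ' n)).re
      have h5 : (0 : ℝ) < ((D * u n : ℤ) : ℝ) := by
        rw [h1]
        linarith
      have h6 : 0 < D * u n := by exact_mod_cast h5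
      exact (pos_of_mul_pos_right h6 hD.le).le

end data

/-- the criterion for nonnegativity -/
theorem critS (f : ℤ[X]) (hf : f.Monic) (hd : 1 ≤ f.natDegree)
    (h0 : f.coeff 0 ≠ 0) (hs : Squarefree (f.map (Int.castRingHom ℚ))) :
    ∃ L : ℕ, 1 ≤ L ∧ ∃ B : ℝ, 0 < B ∧ ∃ Q : (Fin f.natDegree → ℝ) → Prop, SAP Q ∧
      ∀ u : ℕ → ℤ, Ann f u → ∀ A : ℝ, 1 ≤ A →
      (∀ k < f.natDegree, |(u k : ℝ)| ≤ A) →
      ((∀ n, 0 ≤ u n) ↔ (∀ n : ℕ, (n : ℝ) ≤ B * (1 + Real.log A) → 0 ≤ u n) ∧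
        ∀ rr < L, Q (fun k => ((u (rr + k) : ℤ) : ℝ))) := by
  classical
  obtain ⟨K, hfd, hnorm, hsplK, hI⟩ := exists_splitting f hf
  have : NumberField K := { to_charZero := inferInstance, to_finiteDimensional := hfd }
  have : IsGalois ℚ K := { to_isSeparable := inferInstance, to_normal := hnorm }
  set ψ : K →+* ℂ := algebraMap K ℂ with hψ
  set cj : K ≃ₐ[ℚ] K := AlgEquiv.restrictNormal (Complex.conjAe.restrictScalars ℚ) K with hcj
  have hcj' : ∀ x, ψ (cj x) = (starRingEnd ℂ) (ψ x) := fun x =>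
    AlgEquiv.restrictNormal_commutes (Complex.conjAe.restrictScalars ℚ) K x
  have hiint : IsIntegral ℤ (⟨Complex.I, hI⟩ : K) := by
    refine IsIntegral.of_pow (n := 2) (by norm_num) ?_
    have h1 : (⟨Complex.I, hI⟩ : K) ^ 2 = -1 := by
      apply Subtype.ext
      show Complex.I ^ 2 = -1
      exact Complex.I_sq
    rw [h1]
    exact isIntegral_one.neg
  have hspl := Pool.Agent.H692R2.USS.SplitFieldAux.splits_OK K f hf hsplK
  obtain ⟨q, rt, hq, hrt, hdvd, hM, hG, hMC⟩ := simple_data f hf hd hspl hs h0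
  obtain ⟨L, hL, hLe⟩ := exists_exp (Finset.univ.image rt)
  have hnd : ∀ i i', (∃ k : ℕ, 1 ≤ k ∧ (rt i ^ L) ^ k = (rt i' ^ L) ^ k) →
      rt i ^ L = rt i' ^ L := by
    rintro i i' ⟨k, hk, h⟩
    apply hLe _ (Finset.mem_image_of_mem _ (Finset.mem_univ i)) _
      (Finset.mem_image_of_mem _ (Finset.mem_univ i'))
    exact ⟨L * k, Nat.mul_pos hL hk, by rw [pow_mul, pow_mul]; exact h⟩
  exact ⟨L, hL, crit_KS ψ cj hcj' ⟨⟨Complex.I, hI⟩, hiint⟩ rfl hf hd q rt hq hrt hdvd hM hG hMC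
    L hL hnd⟩

end Pool.Agent.TH717.SD
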