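import Mathlib
import Pool.Agent.H581R2.SA
import Pool.Agent.Helper446.RE
import Pool.Agent.H692R2.USS.W1
import Pool.Agent.TH997.US.Conv

/-!
Membership of integer vectors in a fixed semialgebraic set over `ℚ` is decidable.
-/

set_option autoImplicit false

open Finset

namespace Pool.Agent.TH717.SD

open Pool.Agent.H581R2
open Pool.Agent.Helper446.RE (cp_eq cp_le cp_lt cp_comp)
open Pool.Agent.H692R2.USS (cp_and cp_or)

/-- integer coordinates -/
def vec (d : ℕ) (a : List ℤ) : Fin d → ℤ := fun i => a.getD i 0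

theorem int_code (f : List ℤ → ℤ) (hf : ∃ g : List ℤ → ℕ × ℕ, Computable g ∧
    ∀ a, f a = ((g a).1 : ℤ) - (g a).2) : ComputablePred (fun a => 0 < f a) := by
  obtain ⟨g, hg, h⟩ := hf
  have h1 : ComputablePred fun a => (g a).2 < (g a).1 :=
    cp_lt (Computable.snd.comp hg) (Computable.fst.comp hg)
  refine h1.of_eq fun a => ?_
  rw [h]
  omega

/-- functions with computable representation as a difference -/
def CI (f : List ℤ → ℤ) : Prop := ∃ g : List ℤ → ℕ × ℕ, Computable g ∧
    ∀ a, f a = ((g a).1 : ℤ) - (g a).2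

theorem CI.const (z : ℤ) : CI fun _ => z :=
  ⟨fun _ => (z.toNat, (-z).toNat), Computable.const _, fun _ => by
    simp only
    omega⟩

theorem CI.neg {f : List ℤ → ℤ} (hf : CI f) : CI fun a => -f a := by
  obtain ⟨g, hg, h⟩ := hf
  refine ⟨fun a => ((g a).2, (g a).1), (Computable.snd.comp hg).pair (Computable.fst.comp hg),
    fun a => ?_⟩
  beta_reduce
  rw [h]
  simp

theorem CI.add {f f' : List ℤ → ℤ} (hf : CI f) (hf' : CI f') : CI fun a => f a + f' a := by
  obtain ⟨g, hg, h⟩ := hf
  obtain ⟨g', hg', h'⟩ := hf'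
  refine ⟨fun a => ((g a).1 + (g' a).1, (g a).2 + (g' a).2), ?_, fun a => ?_⟩
  · exact (Primrec.nat_add.to_comp.comp (Computable.fst.comp hg) (Computable.fst.comp hg')).pair
      (Primrec.nat_add.to_comp.comp (Computable.snd.comp hg) (Computable.snd.comp hg'))
  · beta_reduce
    rw [h, h']
    push_cast
    ring

theorem CI.mul {f f' : List ℤ → ℤ} (hf : CI f) (hf' : CI f') : CI fun a => f a * f' a := by
  obtain ⟨g, hg, h⟩ := hf
  obtain ⟨g', hg', h'⟩ := hf'
  have h1 := Computable.fst.comp hg
  have h2 := Computable.snd.comp hg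
  have h3 := Computable.fst.comp hg'
  have h4 := Computable.snd.comp hg'
  refine ⟨fun a => ((g a).1 * (g' a).1 + (g a).2 * (g' a).2,
    (g a).1 * (g' a).2 + (g a).2 * (g' a).1), ?_, fun a => ?_⟩
  · exact (Primrec.nat_add.to_comp.comp (Primrec.nat_mul.to_comp.comp h1 h3)
      (Primrec.nat_mul.to_comp.comp h2 h4)).pair
      (Primrec.nat_add.to_comp.comp (Primrec.nat_mul.to_comp.comp h1 h4)
      (Primrec.nat_mul.to_comp.comp h2 h3))
  · beta_reduce
    rw [h, h']
    push_cast
    ring

theorem CI.coord (i : ℕ) : CI fun a => a.getD i 0 := by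
  have h1 : Computable fun a : List ℤ => a.getD i 0 :=
    (Primrec.list_getD (0 : ℤ)).to_comp.comp Computable.id (Computable.const i)
  refine ⟨fun a => Pool.Agent.H692R2.USS.zc (a.getD i 0),
    Pool.Agent.TH997.US.primrec_zc.to_comp.comp h1, fun a => ?_⟩
  unfold Pool.Agent.H692R2.USS.zc
  simp only
  omega

theorem CI.congr {f f' : List ℤ → ℤ} (hf : CI f) (h : ∀ a, f' a = f a) : CI f' := by
  have : f' = f := funext h
  rwa [this]

/-- rational-valued functions with a common denominator -/
def CQ (f : List ℤ → ℝ) : Prop := ∃ D : ℤ, 0 < D ∧ ∃ g : List ℤ → ℤ, CI g ∧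
  ∀ a, f a * D = g a

theorem CQ.poly {d : ℕ} (q : MvPolynomial (Fin d) ℚ) :
    CQ fun a => MvPolynomial.aeval (fun i => ((vec d a i : ℤ) : ℝ)) q := by
  induction q using MvPolynomial.induction_on with
  | C r =>
    refine ⟨r.den, by exact_mod_cast r.den_pos, fun _ => r.num, CI.const _, fun a => ?_⟩
    have h1 := Rat.mul_den_eq_num r
    have h2 : (r : ℝ) * (r.den : ℝ) = (r.num : ℝ) := by exact_mod_cast h1
    beta_reduce
    rw [MvPolynomial.algHom_C]
    simpa using h2
  | add p q hp hq =>
    obtain ⟨D, hD, g, hg, h⟩ := hp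
    obtain ⟨D', hD', g', hg', h'⟩ := hq
    refine ⟨D * D', mul_pos hD hD', fun a => g a * D' + g' a * D,
      (hg.mul (CI.const _)).add (hg'.mul (CI.const _)), fun a => ?_⟩
    have h1 := h a
    have h2 := h' a
    beta_reduce at h1 h2 ⊢
    rw [map_add]
    push_cast
    rw [← h1, ← h2]
    ring
  | mul_X p i hp =>
    obtain ⟨D, hD, g, hg, h⟩ := hp
    refine ⟨D, hD, fun a => g a * a.getD i 0, hg.mul (CI.coord i), fun a => ?_⟩
    have h1 := h a
    beta_reduce at h1 ⊢
    rw [map_mul, MvPolynomial.aeval_X]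
    push_cast
    rw [← h1]
    unfold vec
    ring

theorem cp_pos {f : List ℤ → ℤ} (hf : CI f) : ComputablePred (fun a => 0 < f a) :=
  int_code f hf

theorem cp_true {α : Type} [Primcodable α] (P : Prop) : ComputablePred (fun _ : α => P) := by
  classical
  refine ComputablePred.computable_iff.2 ⟨fun _ => decide P, Computable.const _, ?_⟩
  funext a
  simp

theorem cp_sign {d : ℕ} (q : MvPolynomial (Fin d) ℚ) (s : SignType) :
    ComputablePred (fun a : List ℤ =>
      SignType.sign (MvPolynomial.aeval (fun i => ((vec d a i : ℤ) : ℝ)) q) = s) := by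
  obtain ⟨D, hD, g, hg, h⟩ := CQ.poly q
  have hDR : (0 : ℝ) < D := by exact_mod_cast hD
  have h1 : ∀ a, SignType.sign (MvPolynomial.aeval (fun i => ((vec d a i : ℤ) : ℝ)) q) =
      SignType.sign (g a) := by
    intro a
    have h2 := h a
    simp only at h2
    rcases lt_trichotomy (g a) 0 with h3 | h3 | h3
    · have h4 : (g a : ℝ) < 0 := by exact_mod_cast h3
      rw [sign_neg h3, sign_neg]
      rw [← h2] at h4
      by_contra h5
      push Not at h5
      have := mul_nonneg h5 hDR.le
      linarith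
    · rw [h3, sign_zero, sign_eq_zero_iff]
      rw [h3, Int.cast_zero] at h2
      exact (mul_eq_zero.1 h2).resolve_right hDR.ne'
    · have h4 : (0 : ℝ) < g a := by exact_mod_cast h3
      rw [sign_pos h3, sign_pos]
      rw [← h2] at h4
      exact _root_.pos_of_mul_pos_left h4 hDR.le
  simp_rw [h1]
  cases s with
  | zero =>
    have h2 : ComputablePred (fun a => ¬ 0 < g a ∧ ¬ 0 < -g a) :=
      cp_and (cp_pos hg).not (cp_pos hg.neg).not
    refine h2.of_eq fun a => ?_
    have : (SignType.zero : SignType) = 0 := rfl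
    rw [this, sign_eq_zero_iff]
    omega
  | neg =>
    refine (cp_pos hg.neg).of_eq fun a => ?_
    have : (SignType.neg : SignType) = -1 := rfl
    rw [this, sign_eq_neg_one_iff]
    omega
  | pos =>
    refine (cp_pos hg).of_eq fun a => ?_
    have : (SignType.pos : SignType) = 1 := rfl
    rw [this, sign_eq_one_iff]

theorem cp_forall_mem {α β : Type} [Primcodable β] (s : Finset α) (p : α → β → Prop)
    (h : ∀ a ∈ s, ComputablePred (p a)) : ComputablePred (fun x => ∀ a ∈ s, p a x) := by
  classical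
  induction s using Finset.induction_on with
  | empty => exact (cp_true True).of_eq (by simp)
  | insert a s ha ih =>
    exact (cp_and (h a (by simp)) (ih fun b hb => h b (by simp [hb]))).of_eq (by simp)

theorem cp_exists_mem {α β : Type} [Primcodable β] (s : Finset α) (p : α → β → Prop)
    (h : ∀ a ∈ s, ComputablePred (p a)) : ComputablePred (fun x => ∃ a ∈ s, p a x) := by
  classical
  induction s using Finset.induction_on with
  | empty => exact (cp_true False).of_eq (by simp)
  | insert a s ha ih =>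
    exact (cp_or (h a (by simp)) (ih fun b hb => h b (by simp [hb]))).of_eq (by simp)

/-- membership of integer vectors in a fixed semialgebraic set is decidable -/
theorem cp_sap {d : ℕ} (p : (Fin d → ℝ) → Prop) (hp : SAP p) :
    ComputablePred (fun a : List ℤ => p (fun i => ((vec d a i : ℤ) : ℝ))) := by
  classical
  obtain ⟨Q, hQ⟩ := hp
  set T : Finset (Q → SignType) := Finset.univ.filter fun σ => ∃ v : Fin d → ℝ, p v ∧
    ∀ q : Q, SignType.sign (MvPolynomial.aeval v (q : MvPolynomial (Fin d) ℚ)) = σ q with hT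
  have h1 : ComputablePred (fun a : List ℤ => ∃ σ ∈ T, ∀ q ∈ (Finset.univ : Finset Q),
      SignType.sign (MvPolynomial.aeval (fun i => ((vec d a i : ℤ) : ℝ))
        (q : MvPolynomial (Fin d) ℚ)) = σ q) :=
    cp_exists_mem T _ fun σ _ => cp_forall_mem _ _ fun q _ => cp_sign _ _
  refine h1.of_eq fun a => ?_
  constructor
  · rintro ⟨σ, hσ, h⟩
    obtain ⟨v, hv, hvσ⟩ := (Finset.mem_filter.1 hσ).2
    refine hQ v _ (fun q hq => ?_) hv
    rw [hvσ ⟨q, hq⟩, h ⟨q, hq⟩ (Finset.mem_univ _)]
  · intro h
    exact ⟨fun q => SignType.sign (MvPolynomial.aeval (fun i => ((vec d a i : ℤ) : ℝ))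
        (q : MvPolynomial (Fin d) ℚ)), Finset.mem_filter.2 ⟨Finset.mem_univ _, _, h,
        fun _ => rfl⟩, fun _ _ => rfl⟩

end Pool.Agent.TH717.SD
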